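import Mathlib
import Pool.Agent.U935.KS.Chars

set_option autoImplicit false

namespace Pool.Agent.U935.PR

open Pool.Agent.Q8.KS Pool.Agent.U935.KS Filter Topology

variable {E : Type} [NormedAddCommGroup E] [NormedSpace ℝ E] [FiniteDimensional ℝ E]
variable {C : Set E} {Γ : Type} [AddCommGroup Γ] {T : Γ → E →ₗ[ℝ] E}

omit [FiniteDimensional ℝ E] in
/-- Common eigenvectors for different characters are linearly independent. -/
lemma coeff_zero {ι : Type} (c : ι → E) (hc0 : ∀ i, c i ≠ 0) (χ : ι → Γ →+ ℝ)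
    (hχ : ∀ i g, T g (c i) = Real.exp (χ i g) • c i) (hinj : Function.Injective χ)
    (s : Finset ι) : ∀ a : ι → ℝ, ∑ i ∈ s, a i • c i = 0 → ∀ i ∈ s, a i = 0 := by
  classical
  induction s using Finset.induction_on with
  | empty =>
    intro a _ i hi
    exact absurd hi (Finset.notMem_empty i)
  | insert j s hj ih =>
    intro a ha
    have hs : ∀ i ∈ s, a i = 0 := by
      intro i hi
      have hij : χ i ≠ χ j := fun h => hj (hinj h ▸ hi)
      obtain ⟨g, hg⟩ : ∃ g, χ i g ≠ χ j g := by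
        by_contra hcon
        push Not at hcon
        exact hij (AddMonoidHom.ext hcon)
      have h1 : ∑ k ∈ s, (a k * (Real.exp (χ k g) - Real.exp (χ j g))) • c k = 0 := by
        have h2 : T g (∑ k ∈ insert j s, a k • c k) -
            Real.exp (χ j g) • (∑ k ∈ insert j s, a k • c k) = 0 := by
          rw [ha, map_zero, smul_zero, sub_zero]
        rw [map_sum, Finset.smul_sum, ← Finset.sum_sub_distrib, Finset.sum_insert hj] at h2
        have h3 : ∀ k, T g (a k • c k) - Real.exp (χ j g) • a k • c k =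
            (a k * (Real.exp (χ k g) - Real.exp (χ j g))) • c k := by
          intro k
          rw [map_smul, hχ, smul_smul, smul_smul, ← sub_smul]
          congr 1
          ring
        simp only [h3] at h2
        rw [sub_self, mul_zero, zero_smul, zero_add] at h2
        exact h2
      have h2 := ih _ h1 i hi
      rcases mul_eq_zero.1 h2 with h3 | h3
      · exact h3
      · exfalso
        apply hg
        exact Real.exp_injective (sub_eq_zero.1 h3)
    intro i hi
    rcases Finset.mem_insert.1 hi with rfl | hi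
    · rw [Finset.sum_insert hj, Finset.sum_eq_zero (fun k hk => by rw [hs k hk, zero_smul]),
        add_zero] at ha
      exact (smul_eq_zero.1 ha).resolve_right (hc0 i)
    · exact hs i hi

omit [FiniteDimensional ℝ E] in
lemma independent {ι : Type} [Fintype ι] (c : ι → E) (hc0 : ∀ i, c i ≠ 0) (χ : ι → Γ →+ ℝ)
    (hχ : ∀ i g, T g (c i) = Real.exp (χ i g) • c i) (hinj : Function.Injective χ) :
    LinearIndependent ℝ c := by
  rw [Fintype.linearIndependent_iff]
  intro a ha i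
  exact coeff_zero c hc0 χ hχ hinj Finset.univ a ha i (Finset.mem_univ i)

lemma card_le {ρ : ℕ} (hρ : Module.finrank ℝ E = ρ) (F : Finset (Γ →+ ℝ))
    (hF : ∀ χ ∈ F, IsChar C T χ) : F.card ≤ ρ := by
  have h1 : ∀ χ : F, ∃ c ∈ C, c ≠ 0 ∧ ∀ g, T g c = Real.exp ((χ : Γ →+ ℝ) g) • c :=
    fun χ => hF χ.1 χ.2
  choose c hc hc0 hχ using h1
  have h2 := (independent c hc0 (fun χ : F => (χ : Γ →+ ℝ)) hχ
    Subtype.val_injective).fintype_card_le_finrank
  rwa [Fintype.card_coe, hρ] at h2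

/-- The characters of a basis of common eigenvectors have sum zero, if the action preserves a
lattice. -/
lemma sum_zero {ρ : ℕ}
    (b : Module.Basis (Fin ρ) ℝ E) (hint : ∀ g i j, ∃ m : ℤ, b.repr (T g (b j)) i = m)
    {ι : Type} [Fintype ι] (B : Module.Basis ι ℝ E) (χ : ι → Γ →+ ℝ)
    (hχ : ∀ i g, T g (B i) = Real.exp (χ i g) • B i) (g : Γ) : ∑ i, χ i g = 0 := by
  classical
  have hdet : ∀ g, LinearMap.det (T g) = Real.exp (∑ i, χ i g) := by
    intro g
    have h1 : LinearMap.toMatrix B B (T g) = Matrix.diagonal fun i => Real.exp (χ i g) := by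
      ext i j
      rw [LinearMap.toMatrix_apply, hχ, map_smul, Finsupp.smul_apply, Module.Basis.repr_self,
        Matrix.diagonal_apply, Finsupp.single_apply, smul_eq_mul]
      by_cases hij : j = i
      · subst hij
        simp
      · rw [if_neg hij, if_neg (Ne.symm hij), mul_zero]
    rw [← LinearMap.det_toMatrix B, h1, Matrix.det_diagonal, Real.exp_sum]
  have hZ : ∀ g, ∃ m : ℤ, LinearMap.det (T g) = m := by
    intro g
    choose m hm using hint g
    refine ⟨(Matrix.of m).det, ?_⟩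
    have h1 : LinearMap.toMatrix b b (T g) = (Matrix.of m).map (Int.castRingHom ℝ) := by
      ext i j
      rw [LinearMap.toMatrix_apply, hm]
      rfl
    rw [← LinearMap.det_toMatrix b, h1]
    exact (RingHom.map_det (Int.castRingHom ℝ) (Matrix.of m)).symm
  obtain ⟨m, hm⟩ := hZ g
  obtain ⟨m', hm'⟩ := hZ (-g)
  have h1 : LinearMap.det (T g) * LinearMap.det (T (-g)) = 1 := by
    rw [hdet, hdet, ← Real.exp_add]
    have : ∑ i, χ i g + ∑ i, χ i (-g) = 0 := by
      rw [← Finset.sum_add_distrib]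
      exact Finset.sum_eq_zero fun i _ => by rw [map_neg, add_neg_cancel]
    rw [this, Real.exp_zero]
  have hpos : (0 : ℝ) < m := by
    rw [← hm, hdet]
    exact Real.exp_pos _
  have h2 : m * m' = 1 := by
    rw [hm, hm'] at h1
    exact_mod_cast h1
  have h3 : m = 1 := by
    have hm0 : 0 < m := by exact_mod_cast hpos
    exact Int.eq_one_of_mul_eq_one_right hm0.le h2
  have h4 := hdet g
  rw [hm, h3, Int.cast_one] at h4
  exact (Real.exp_eq_one_iff _).1 h4.symm

/-- **The eigenvectors** for groups whose rank is the dimension of the space minus one. -/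
theorem characters (hC : IsCone C) (h : ConeAction C T) (l : E →ₗ[ℝ] ℝ)
    (hl : ∀ x ∈ C, x ≠ 0 → 0 < l x) {A : E} (hA : A ∈ interior C) {r : ℕ}
    (b : Module.Basis (Fin (r + 1)) ℝ E) (hint : ∀ g i j, ∃ m : ℤ, b.repr (T g (b j)) i = m)
    (hr : 1 ≤ r) (w : (Fin r → ℤ) →+ Γ)
    (hent : ∀ a : Fin r → ℤ, a ≠ 0 → ∃ d : ℝ, 1 < d ∧
      Tendsto (fun k : ℕ => (l ((T (w a) ^ k) A)) ^ (1 / (k : ℝ))) atTop (𝓝 d)) :
    ∃ (c : Module.Basis (Fin (r + 1)) ℝ E) (χ : Fin (r + 1) → Γ →+ ℝ), (∀ i, c i ∈ C) ∧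
      (∀ i g, T g (c i) = Real.exp (χ i g) • c i) ∧ (∀ g, ∑ i, χ i g = 0) ∧
      (∀ i, LinearIndependent ℝ fun j : {j // j ≠ i} => (χ j.1 : Γ → ℝ)) := by
  classical
  have hρ : Module.finrank ℝ E = r + 1 := by
    rw [Module.finrank_eq_card_basis b, Fintype.card_fin]
  -- there are finitely many characters
  have hfin : {χ : Γ →+ ℝ | IsChar C T χ}.Finite := by
    by_contra hinf
    obtain ⟨F, hF, hcard⟩ := Set.Infinite.exists_subset_card_eq hinf (r + 2)
    have := card_le (C := C) (T := T) hρ F fun χ hχ => hF hχ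
    omega
  obtain ⟨F, hF⟩ : ∃ F : Finset (Γ →+ ℝ), F = hfin.toFinset := ⟨_, rfl⟩
  have hmem : ∀ χ, χ ∈ F ↔ IsChar C T χ := by
    intro χ
    rw [hF, Set.Finite.mem_toFinset]
    rfl
  have hle : F.card ≤ r + 1 := card_le (C := C) (T := T) hρ F fun χ hχ => (hmem χ).1 hχ
  -- each element has a positive character
  have hpos : ∀ a : Fin r → ℤ, a ≠ 0 → ∃ χ ∈ F, 0 < χ (w a) := by
    intro g hg
    obtain ⟨d, hd, hlim⟩ := hent g hg
    obtain ⟨χ, hχ, hχd⟩ := exists_growth_char hC h l hl hA (zero_lt_one.trans hd) hlim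
    refine ⟨χ, (hmem χ).2 hχ, ?_⟩
    rw [← hχd] at hd
    exact Real.one_lt_exp_iff.1 hd
  -- the gap
  obtain ⟨δ, hδ, hgap⟩ : ∃ δ : ℝ, 0 < δ ∧ ∀ a : Fin r → ℤ, a ≠ 0 → ∃ χ ∈ F, δ ≤ |χ (w a)| := by
    obtain ⟨S, hS, hSF⟩ := finite_eigenvalues b (Real.exp 1)
    obtain ⟨ε, hε, hεS⟩ : ∃ ε : ℝ, 1 < ε ∧ ∀ d ∈ S, 1 < d → ε ≤ d := by
      rcases (S ∩ Set.Ioi 1).eq_empty_or_nonempty with he | hne
      · refine ⟨2, by norm_num, fun d hd hd1 => ?_⟩
        have hmem2 : d ∈ S ∩ Set.Ioi 1 := ⟨hd, hd1⟩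
        rw [he] at hmem2
        exact hmem2.elim
      · obtain ⟨e, he, hmin⟩ := Set.exists_min_image _ id (hS.inter_of_left _) hne
        exact ⟨e, he.2, fun d hd hd1 => hmin d ⟨hd, hd1⟩⟩
    refine ⟨min 1 (Real.log ε), lt_min one_pos (Real.log_pos hε), fun g hg => ?_⟩
    by_contra hcon
    push Not at hcon
    obtain ⟨d, hd, hlim⟩ := hent g hg
    have hd0 : 0 < d := zero_lt_one.trans hd
    obtain ⟨χ, hχ, hχd⟩ := exists_growth_char hC h l hl hA hd0 hlim
    have h1 := hcon χ ((hmem χ).2 hχ)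
    have h2 : χ (w g) ≤ 1 := by
      have := le_abs_self (χ (w g))
      have := h1.trans_le (min_le_left _ _)
      linarith
    have h3 : d ≤ Real.exp 1 := by
      rw [← hχd]
      exact Real.exp_le_exp.2 h2
    have h4 : d ∈ S := by
      refine hSF (T (w g)) (hint (w g)) (fun μ hμ => ?_) d ?_
      · exact (eigenvalue_le hC l hl hA (T (w g)) (h.mem (w g)) hd0 hlim hμ).trans h3
      · obtain ⟨c, hc, hc0, hcχ⟩ := hχ
        refine Module.End.hasEigenvalue_of_hasEigenvector (x := c) ⟨?_, hc0⟩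
        rw [Module.End.mem_eigenspace_iff, hcχ, hχd]
    have h5 := hεS d h4 hd
    rw [← hχd] at h5
    have h6 : Real.log ε ≤ χ (w g) := by
      have := Real.log_le_log (by linarith) h5
      rwa [Real.log_exp] at this
    have h7 := h1.trans_le (min_le_right _ _)
    have := le_abs_self (χ (w g))
    linarith
  -- the characters are dependent
  have hv : LinearIndependent ℤ (Pi.basisFun ℤ (Fin r)) := (Pi.basisFun ℤ (Fin r)).linearIndependent
  have hv0 : (Pi.basisFun ℤ (Fin r)) ⟨0, hr⟩ ≠ 0 := hv.ne_zero _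
  have hrank := rank_lower (fun χ : F => (χ : Γ →+ ℝ).comp w) hδ (fun g hg => by
    obtain ⟨χ, hχ, hχg⟩ := hgap g hg
    exact ⟨⟨χ, hχ⟩, hχg⟩) _ hv
  have hdep : ¬ LinearIndependent ℝ fun χ : F => ((χ : Γ →+ ℝ).comp w : (Fin r → ℤ) → ℝ) := by
    intro hli
    obtain ⟨g, hg⟩ := exists_negative (fun χ : F => (χ : Γ →+ ℝ).comp w) hli
    obtain ⟨χ, hχ, -⟩ := hpos _ hv0
    have hg0 : g ≠ 0 := by
      intro h0
      have := hg ⟨χ, hχ⟩
      rw [h0, map_zero] at this
      exact lt_irrefl _ this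
    obtain ⟨ψ, hψ, hψg⟩ := hpos g hg0
    have h1 : ψ (w g) < 0 := hg ⟨ψ, hψ⟩
    linarith
  have hlt := rank_lt (fun χ : F => (χ : Γ →+ ℝ).comp w) hdep
  rw [Fintype.card_coe] at hlt
  have hcard : F.card = r + 1 := by omega
  have e := F.equivFinOfCardEq hcard
  obtain ⟨χ, hχe⟩ : ∃ χ : Fin (r + 1) → Γ →+ ℝ, χ = fun i => (e.symm i : Γ →+ ℝ) := ⟨_, rfl⟩
  have hχinj : Function.Injective χ := by
    rw [hχe]
    exact fun i j hij => e.symm.injective (Subtype.ext hij)
  have hχchar : ∀ i, IsChar C T (χ i) := by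
    intro i
    rw [hχe]
    exact (hmem _).1 (e.symm i).2
  have hχsurj : ∀ ψ ∈ F, ∃ i, χ i = ψ := by
    intro ψ hψ
    refine ⟨e ⟨ψ, hψ⟩, ?_⟩
    rw [hχe]
    show ((e.symm (e ⟨ψ, hψ⟩) : F) : Γ →+ ℝ) = ψ
    rw [e.symm_apply_apply]
  have hrank2 := rank_lower (fun i => (χ i).comp w) hδ (fun g hg => by
    obtain ⟨ψ, hψ, hψg⟩ := hgap g hg
    obtain ⟨i, rfl⟩ := hχsurj ψ hψ
    exact ⟨i, hψg⟩) _ hv
  choose c hc hc0 hcχ using hχchar
  have hind := independent c hc0 χ hcχ hχinj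
  obtain ⟨B, hB⟩ : ∃ B : Module.Basis (Fin (r + 1)) ℝ E, ∀ i, B i = c i :=
    ⟨basisOfLinearIndependentOfCardEqFinrank hind (by rw [Fintype.card_fin, hρ]), fun i => by
      rw [coe_basisOfLinearIndependentOfCardEqFinrank]⟩
  have hBχ : ∀ i g, T g (B i) = Real.exp (χ i g) • B i := by
    intro i g
    rw [hB]
    exact hcχ i g
  have hsum : ∀ g, ∑ i, χ i g = 0 := sum_zero b hint B χ hBχ
  have hconst : ∀ a : Fin (r + 1) → ℝ, (∀ x, ∑ j, a j * χ j (w x) = 0) → ∃ t : ℝ, ∀ j, a j = t :=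
    fun a ha => relation_const (fun i => (χ i).comp w) (Fintype.card_fin _) hrank2
      (fun g => hsum (w g)) a ha
  refine ⟨B, χ, fun i => by rw [hB]; exact hc i, hBχ, hsum, fun i => ?_⟩
  rw [Fintype.linearIndependent_iff]
  intro a ha
  obtain ⟨a', ha'⟩ : ∃ a' : Fin (r + 1) → ℝ,
    a' = fun j => if hj : j ≠ i then a ⟨j, hj⟩ else 0 := ⟨_, rfl⟩
  have ha'i : a' i = 0 := by
    rw [ha']
    simp
  have ha'j : ∀ j : {j // j ≠ i}, a' j.1 = a j := by
    intro j
    rw [ha']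
    simp [j.2]
  obtain ⟨t, ht⟩ := hconst a' (by
    intro g
    rw [← Finset.add_sum_erase _ _ (Finset.mem_univ i), ha'i, zero_mul, zero_add,
      Finset.sum_subtype (Finset.univ.erase i) (p := fun j => j ≠ i) (by simp)]
    have := congrFun ha (w g)
    rw [Finset.sum_apply] at this
    refine (Finset.sum_congr rfl fun j _ => ?_).trans this
    rw [ha'j, Pi.smul_apply, smul_eq_mul])
  intro j
  rw [← ha'j, ht j.1, ← ht i, ha'i]

end Pool.Agent.U935.PR
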