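import Mathlib
import Pool.Agent.U935.PR.Chars

set_option autoImplicit false

namespace Pool.Agent.U935.PR

open Pool.Agent.Q8.KS Pool.Agent.U935.KS Filter Topology

variable {E : Type} [NormedAddCommGroup E] [NormedSpace ℝ E] [FiniteDimensional ℝ E]
variable {Γ : Type} [AddCommGroup Γ] {T : Γ → E →ₗ[ℝ] E}

omit [FiniteDimensional ℝ E] in
lemma map_nsmul_basis {ι : Type} [Fintype ι] (B : Module.Basis ι ℝ E) (χ : ι → Γ →+ ℝ)
    (hχ : ∀ i g, T g (B i) = Real.exp (χ i g) • B i) (g : Γ) (n : ℕ) (x : E) :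
    T (n • g) x = ∑ j, (B.repr x j * Real.exp (χ j g) ^ n) • B j := by
  conv_lhs => rw [← B.sum_repr x, map_sum]
  refine Finset.sum_congr rfl fun j _ => ?_
  rw [map_smul, hχ, smul_smul, map_nsmul, nsmul_eq_mul, Real.exp_nat_mul]

/-- The coordinates of the elements of an invariant cone, in a basis of eigenvectors, are
nonnegative. -/
lemma coord_nonneg {ι : Type} [Fintype ι] {K : Set E} (hK : IsCone K)
    (hT : ∀ g, ∀ x ∈ K, T g x ∈ K) (B : Module.Basis ι ℝ E) (χ : ι → Γ →+ ℝ)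
    (hχ : ∀ i g, T g (B i) = Real.exp (χ i g) • B i)
    (hexp : ∀ i, ∃ g, 0 < χ i g ∧ ∀ j, j ≠ i → χ j g < 0) (hneg : ∀ i, -(B i) ∉ K) {x : E}
    (hx : x ∈ K) (i : ι) : 0 ≤ B.repr x i := by
  classical
  by_contra hlt
  have hlt : B.repr x i < 0 := not_le.1 hlt
  obtain ⟨g, hg, hgj⟩ := hexp i
  have h1 : ∀ n : ℕ, (Real.exp (χ i g) ^ n)⁻¹ • T (n • g) x ∈ K := fun n =>
    hK.smul _ (by positivity) _ (hT _ _ hx)
  have h2 : ∀ n : ℕ, (Real.exp (χ i g) ^ n)⁻¹ • T (n • g) x =
      ∑ j, (B.repr x j * (Real.exp (χ j g) / Real.exp (χ i g)) ^ n) • B j := by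
    intro n
    rw [map_nsmul_basis B χ hχ, Finset.smul_sum]
    refine Finset.sum_congr rfl fun j _ => ?_
    rw [smul_smul, div_pow]
    congr 1
    field_simp
  have h3 : Tendsto (fun n : ℕ => ∑ j, (B.repr x j *
      (Real.exp (χ j g) / Real.exp (χ i g)) ^ n) • B j) atTop
      (𝓝 (∑ j, (if j = i then B.repr x i else 0) • B j)) := by
    refine tendsto_finsetSum _ fun j _ => ?_
    by_cases hj : j = i
    · subst hj
      rw [if_pos rfl, div_self (Real.exp_ne_zero _)]
      simp only [one_pow, mul_one]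
      exact tendsto_const_nhds
    · rw [if_neg hj]
      have h4 : Real.exp (χ j g) / Real.exp (χ i g) < 1 := by
        rw [div_lt_one (Real.exp_pos _)]
        exact Real.exp_lt_exp.2 ((hgj j hj).trans hg)
      have h5 : Tendsto (fun n : ℕ => B.repr x j *
          (Real.exp (χ j g) / Real.exp (χ i g)) ^ n) atTop (𝓝 (B.repr x j * 0)) :=
        (tendsto_pow_atTop_nhds_zero_of_lt_one (by positivity) h4).const_mul _
      rw [mul_zero] at h5
      exact h5.smul_const _
  have h4 : ∑ j, (if j = i then B.repr x i else 0) • B j = B.repr x i • B i := by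
    rw [Finset.sum_eq_single i]
    · rw [if_pos rfl]
    · intro j _ hj
      rw [if_neg hj, zero_smul]
    · intro h
      exact absurd (Finset.mem_univ i) h
  rw [h4] at h3
  have h5 : B.repr x i • B i ∈ K := by
    refine hK.closed.mem_of_tendsto h3 (Eventually.of_forall fun n => ?_)
    rw [← h2]
    exact h1 n
  apply hneg i
  have h6 := hK.smul (-(B.repr x i))⁻¹ (inv_nonneg.2 (by linarith)) _ h5
  rw [smul_smul] at h6
  have h7 : (-(B.repr x i))⁻¹ * B.repr x i = -1 := by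
    rw [inv_neg, neg_mul, inv_mul_cancel₀ hlt.ne]
  rwa [h7, neg_one_smul] at h6

/-- An invariant cone which contains the eigenvectors is spanned by them. -/
lemma mem_iff {ι : Type} [Fintype ι] {K : Set E} (hK : IsCone K)
    (hT : ∀ g, ∀ x ∈ K, T g x ∈ K) (B : Module.Basis ι ℝ E) (χ : ι → Γ →+ ℝ)
    (hχ : ∀ i g, T g (B i) = Real.exp (χ i g) • B i)
    (hexp : ∀ i, ∃ g, 0 < χ i g ∧ ∀ j, j ≠ i → χ j g < 0) (hneg : ∀ i, -(B i) ∉ K)
    (hB : ∀ i, B i ∈ K) (x : E) : x ∈ K ↔ ∀ i, 0 ≤ B.repr x i := by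
  constructor
  · exact fun hx i => coord_nonneg hK hT B χ hχ hexp hneg hx i
  · intro h
    rw [← B.sum_repr x]
    exact Finset.sum_induction _ (fun y => y ∈ K) (fun y z hy hz => hK.add y hy z hz)
      hK.zero fun i _ => hK.smul _ (h i) _ (hB i)

/-- The sum of the eigenvectors is in the interior. -/
lemma sum_interior {ι : Type} [Fintype ι] {K : Set E} (hK : IsCone K) (B : Module.Basis ι ℝ E)
    (hB : ∀ i, B i ∈ K) (hmem : ∀ x ∈ K, ∀ i, 0 ≤ B.repr x i) {A : E} (hA : A ∈ interior K) :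
    ∑ i, B i ∈ interior K := by
  obtain ⟨M, hM⟩ : ∃ M : ℝ, M = 1 + ∑ i, B.repr A i := ⟨_, rfl⟩
  have hnn : ∀ i, 0 ≤ B.repr A i := hmem A (interior_subset hA)
  have hle : ∀ i, B.repr A i ≤ M := by
    intro i
    have := Finset.single_le_sum (f := fun i => B.repr A i) (fun j _ => hnn j)
      (Finset.mem_univ i)
    rw [hM]
    linarith
  have hM0 : 0 < M := by
    have := Finset.sum_nonneg fun i (_ : i ∈ Finset.univ) => hnn i
    rw [hM]
    linarith
  have h1 : A + ∑ i, (M - B.repr A i) • B i ∈ interior K := by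
    refine ample_add hK hA ?_
    exact Finset.sum_induction _ (fun y => y ∈ K) (fun y z hy hz => hK.add y hy z hz)
      hK.zero fun i _ => hK.smul _ (by linarith [hle i]) _ (hB i)
  have h2 : A + ∑ i, (M - B.repr A i) • B i = M • ∑ i, B i := by
    conv_lhs => rw [← B.sum_repr A]
    rw [← Finset.sum_add_distrib, Finset.smul_sum]
    refine Finset.sum_congr rfl fun i _ => ?_
    rw [B.sum_repr A, ← add_smul]
    congr 1
    ring
  rw [h2] at h1
  have h3 := ample_smul hK h1 (inv_pos.2 hM0)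
  rwa [smul_smul, inv_mul_cancel₀ hM0.ne', one_smul] at h3

end Pool.Agent.U935.PR
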