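import Mathlib
import Pool.Agent.U935.KS.GeoDefs

set_option autoImplicit false

namespace Pool.Agent.U935.PR

open Pool.Agent.Q8.KS Pool.Agent.U935.KS Filter Topology

/-- The abelian group `Γ` acts by automorphisms over the ground field on the projective variety `V`
of Picard number `ρ`; the action on points and on divisor classes, and its known properties. -/
structure LatticeAction {G : Type} [Group G] (V : Variety G) (Z : Zariski V) (Γ : Type)
    [AddCommGroup Γ] (ρ : ℕ) where
  /-- the automorphisms -/
  act : Γ → Morphism V V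
  act_zero : ∀ x, (act 0).pt x = x
  act_add : ∀ g h x, (act (g + h)).pt x = (act g).pt ((act h).pt x)
  ns_zero : ∀ D, (act 0).ns D = D
  ns_add : ∀ g h D, (act (g + h)).ns D = (act g).ns ((act h).ns D)
  /-- a basis of the lattice of classes of line bundles in `N¹(V) ⊗ ℝ` -/
  lattice : Module.Basis (Fin ρ) ℝ V.NS
  /-- automorphisms preserve this lattice -/
  lattice_ns : ∀ g i j, ∃ m : ℤ, lattice.repr ((act g).ns (lattice j)) i = m
  /-- automorphisms preserve the pseudo-effective cone -/
  eff_ns : ∀ g, ∀ E ∈ Z.Eff, (act g).ns E ∈ Z.Eff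
  /-- pseudo-effective classes have nonnegative degree -/
  deg_eff : ∀ A : V.Pic, V.IsAmple A → ∀ E ∈ Z.Eff, 0 ≤ V.deg (V.cls A) E

variable {G : Type} [Group G] {V : Variety G} {Z : Zariski V} {Γ : Type} [AddCommGroup Γ] {ρ : ℕ}

/-- The group contains the image of a free abelian group of rank `r` all of whose nonzero elements
have first dynamical degree larger than one (positive entropy). -/
def EntropyRank (P : LatticeAction V Z Γ ρ) (r : ℕ) : Prop :=
  ∃ (A : V.Pic) (w : (Fin r → ℤ) →+ Γ), V.IsAmple A ∧ ∀ a : Fin r → ℤ, a ≠ 0 →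
    ∃ d : ℝ, 1 < d ∧ IsDynamicalDegree (P.act (w a)) A d

/-- There is a basis `c_1, …, c_ρ` of `N¹(V) ⊗ ℝ` with `g^* c_i = e^{χ_i(g)} c_i` for all `g`, and the
nef cone and the pseudo-effective cone are both equal to the simplicial cone spanned by the `c_i`;
the sum of the characters is zero and any `ρ - 1` of them are linearly independent. -/
structure Simplicial (P : LatticeAction V Z Γ ρ) (χ : Fin ρ → Γ →+ ℝ) : Prop where
  basis : ∃ c : Module.Basis (Fin ρ) ℝ V.NS,
    (∀ i g, (P.act g).ns (c i) = Real.exp (χ i g) • c i) ∧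
    (∀ D, D ∈ V.Nef ↔ ∀ i, 0 ≤ c.repr D i) ∧ ∀ D, D ∈ Z.Eff ↔ ∀ i, 0 ≤ c.repr D i
  sum_zero : ∀ g, ∑ i, χ i g = 0
  independent : ∀ i, LinearIndependent ℝ fun j : {j // j ≠ i} => (χ j.1 : Γ → ℝ)

/-- The orbit of `x` under the group is infinite. -/
def InfiniteUnder (P : LatticeAction V Z Γ ρ) (x : V.Pt) : Prop :=
  (Set.range fun g : Γ => (P.act g).pt x).Infinite

/-- The heights along the orbit of `x` under the group are `∑_i e^{χ_i(g)}` up to constant
factors. -/
def HeightGrowth (P : LatticeAction V Z Γ ρ) (u : V.Pt → ℝ) {m : ℕ} (χ : Fin m → Γ →+ ℝ)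
    (x : V.Pt) : Prop :=
  ∃ c C : ℝ, 0 < c ∧ 0 < C ∧ ∀ g : Γ, c * ∑ i, Real.exp (χ i g) ≤ max 1 (u ((P.act g).pt x)) ∧
    max 1 (u ((P.act g).pt x)) ≤ C * ∑ i, Real.exp (χ i g)

/-- Known facts on the subvarieties (irreducible closed subsets) of `V`: their dimensions and
intersection numbers with divisor classes. -/
structure SubvarietyData (P : LatticeAction V Z Γ ρ) where
  /-- the Zariski topology is noetherian -/
  noetherian : @TopologicalSpace.NoetherianSpace V.Pt Z.top
  /-- the automorphisms are continuous -/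
  continuous : ∀ g, Continuous[Z.top, Z.top] (P.act g).pt
  /-- the dimension of an irreducible closed subset -/
  dim : Set V.Pt → ℕ
  dim_univ : dim Set.univ = V.dimPred + 1
  dim_lt : ∀ W : Set V.Pt, IsClosed[Z.top] W → @IsIrreducible _ Z.top W → W ≠ Set.univ →
    dim W < V.dimPred + 1
  dim_pos : ∀ W : Set V.Pt, IsClosed[Z.top] W → @IsIrreducible _ Z.top W → W.Infinite →
    0 < dim W
  /-- the intersection numbers `E_1 ⋯ E_m ⋅ W`, `m = dim W` -/
  int : ∀ W : Set V.Pt, MultilinearMap ℝ (fun _ : Fin (dim W) => V.NS) ℝ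
  /-- ample classes have positive degree on subvarieties -/
  int_pos : ∀ W : Set V.Pt, IsClosed[Z.top] W → @IsIrreducible _ Z.top W →
    ∀ D ∈ interior V.Nef, 0 < int W (fun _ => D)
  /-- the intersection numbers on `W` are invariant under automorphisms which preserve `W` -/
  int_map : ∀ W : Set V.Pt, IsClosed[Z.top] W → @IsIrreducible _ Z.top W → ∀ g : Γ,
    (P.act g).pt '' W = W → ∀ E : Fin (dim W) → V.NS,
      int W (fun j => (P.act g).ns (E j)) = int W E
  /-- there are infinitely many points of bounded degree -/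
  many : ∃ e : ℕ, {x : V.Pt | (MulAction.orbit G x).ncard ≤ e}.Infinite

/-- The subset `W` has finitely many translates under the group. -/
def FinitelyManyTranslates (P : LatticeAction V Z Γ ρ) (W : Set V.Pt) : Prop :=
  (Set.range fun g : Γ => (P.act g).pt '' W).Finite

/-- The Zariski closure of the orbit of `x` is the union of the translates of a subvariety `W` of
positive dimension, of which there are finitely many. -/
def OrbitClosure (P : LatticeAction V Z Γ ρ) (x : V.Pt) (W : Set V.Pt) : Prop :=
  IsClosed[Z.top] W ∧ @IsIrreducible _ Z.top W ∧ W.Infinite ∧ FinitelyManyTranslates P W ∧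
    @closure _ Z.top (Set.range fun g : Γ => (P.act g).pt x) = ⋃ g : Γ, (P.act g).pt '' W

end Pool.Agent.U935.PR
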