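import Mathlib
import Pool.Agent.U935.PR.Defs
import Pool.Agent.U935.PR.Ample
import Pool.Agent.U935.KS.Group2
import Pool.Agent.U935.KS.Derive

set_option autoImplicit false

namespace Pool.Agent.U935.PR

open Pool.Agent.Q8.KS Filter Topology
open Pool.Agent.U935.KS (Zariski NumberField InfiniteOrbit topRate ConeAction AbelianAction
  MaximalRank Exposed Balanced InfiniteGroupOrbit Spectrum rate DenseOrbit IsChar)

variable {G : Type} [Group G] {V : Variety G} {Z : Zariski V} {Γ : Type} [AddCommGroup Γ]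

lemma deg_pos {A : V.Pic} (hA : V.IsAmple A) : ∀ x ∈ V.Nef, x ≠ 0 → 0 < V.deg (V.cls A) x :=
  fun x hx hx0 => V.int_pos _ hA x hx hx0

/-- The ample class is not zero. -/
lemma ample_ne {A : V.Pic} (hA : V.IsAmple A) {c : V.NS} (hc : c ∈ V.Nef) (hc0 : c ≠ 0) :
    V.cls A ≠ 0 := by
  intro h0
  have hA' : (0 : V.NS) ∈ interior V.Nef := by
    have h1 : V.cls A ∈ interior V.Nef := hA
    rwa [h0] at h1
  obtain ⟨M, hM, hunit⟩ := unit_le V.nef_cone hA'
  have h1 : -c ∈ V.Nef := by
    have := hunit c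
    rwa [smul_zero, zero_sub] at this
  have h2 := deg_pos hA c hc hc0
  have h3 := deg_pos hA _ h1 (neg_ne_zero.2 hc0)
  rw [map_neg] at h3
  linarith

/-- **The eigenbasis** for groups whose rank is the Picard number minus one. -/
theorem exists_action {r : ℕ} (hr : 1 ≤ r) (P : LatticeAction V Z Γ (r + 1))
    (hP : EntropyRank P r) :
    ∃ R : AbelianAction V Z Γ (Fin (r + 1)), R.act = P.act ∧ MaximalRank R ∧
      Simplicial P R.χ ∧ (∀ i, R.D i ∈ V.Nef) ∧ (∀ i, R.D i ≠ 0) ∧ R.Null = ∅ ∧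
      ∑ i, R.D i ∈ interior V.Nef := by
  obtain ⟨A, w, hA, hw⟩ := hP
  have hact : ConeAction V.Nef fun g => (P.act g).ns :=
    ⟨P.ns_zero, P.ns_add, fun g x hx => (P.act g).nef x hx⟩
  obtain ⟨B, χ, hB, hχ, hsum, hli⟩ := characters V.nef_cone hact (V.deg (V.cls A)) (deg_pos hA) hA
    P.lattice P.lattice_ns hr w hw
  have hexp : ∀ i, ∃ g, 0 < χ i g ∧ ∀ j, j ≠ i → χ j g < 0 := by
    intro i
    obtain ⟨g, hg⟩ := Pool.Agent.U935.KS.exists_negative (fun j : {j // j ≠ i} => χ j.1) (hli i)
    have hneg : ∀ j, j ≠ i → χ j g < 0 := fun j hj => hg ⟨j, hj⟩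
    refine ⟨g, ?_, hneg⟩
    have h1 := hsum g
    rw [← Finset.add_sum_erase _ _ (Finset.mem_univ i)] at h1
    have hne : (Finset.univ.erase i).Nonempty := by
      rw [← Finset.card_pos, Finset.card_erase_of_mem (Finset.mem_univ i), Finset.card_univ,
        Fintype.card_fin]
      omega
    have h2 : ∑ j ∈ Finset.univ.erase i, χ j g < 0 :=
      Finset.sum_neg (fun j hj => hneg j (Finset.ne_of_mem_erase hj)) hne
    linarith
  have hnegNef : ∀ i, -(B i) ∉ V.Nef := by
    intro i h
    have h2 := deg_pos hA _ (hB i) (B.ne_zero i)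
    have h3 := deg_pos hA _ h (neg_ne_zero.2 (B.ne_zero i))
    rw [map_neg] at h3
    linarith
  have hnegEff : ∀ i, -(B i) ∉ Z.Eff := by
    intro i h
    have h2 := deg_pos hA _ (hB i) (B.ne_zero i)
    have h3 := P.deg_eff A hA _ h
    rw [map_neg] at h3
    linarith
  have hNef := mem_iff V.nef_cone (fun g x hx => (P.act g).nef x hx) B χ hχ hexp hnegNef hB
  have hEff := mem_iff Z.eff_cone P.eff_ns B χ hχ hexp hnegEff fun i => Z.nef_subset (hB i)
  have hint : ∑ i, B i ∈ interior V.Nef :=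
    sum_interior V.nef_cone B hB (fun x hx => (hNef x).1 hx) hA
  refine ⟨{ act := P.act, act_zero := P.act_zero, act_add := P.act_add, D := B, χ := χ,
            eigen := fun g i => hχ i g, big := interior_mono Z.nef_subset hint,
            eff_map := P.eff_ns, deg_eff := P.deg_eff,
            Null := ∅, null_closed := @isClosed_empty _ Z.top,
            null_ne := ?_,
            null_inv := fun g x hx => hx.elim,
            null_height := ?_ }, rfl, ⟨?_, hli, fun _ => 1, fun _ => one_pos, fun g => ?_⟩,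
          ⟨⟨B, hχ, hNef, hEff⟩, hsum, hli⟩, hB, B.ne_zero, rfl, hint⟩
  · have := Z.infinite
    exact Set.empty_ne_univ
  · intro E A' u v hE hA' hu hv
    -- a small multiple of the ample class can be subtracted
    have hcont : Continuous fun t : ℝ => (∑ i, B i) - t • V.cls A' := by fun_prop
    have hopen : {t : ℝ | (∑ i, B i) - t • V.cls A' ∈ interior V.Nef} ∈ 𝓝 (0 : ℝ) := by
      refine hcont.continuousAt.preimage_mem_nhds (isOpen_interior.mem_nhds ?_)
      simpa using hint
    obtain ⟨δ, hδ, hball⟩ := Metric.mem_nhds_iff.1 hopen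
    have hmem : (∑ i, B i) - (δ / 2) • V.cls A' ∈ interior V.Nef := by
      apply hball
      rw [Metric.mem_ball, Real.dist_eq, sub_zero, abs_of_pos (by positivity)]
      linarith
    obtain ⟨c, hc⟩ := V.ample_height (E - (δ / 2) • A') (by
        rw [map_sub, map_smul, hE]
        exact hmem) _ (height_sub V hu (height_smul V (δ / 2) hv))
    refine ⟨δ / 2, -c, by positivity, fun x _ => ?_⟩
    have := hc x
    simp only [Pi.sub_apply, Pi.smul_apply, smul_eq_mul] at this
    linarith
  · rw [Fintype.card_fin]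
    omega
  · simp only [one_mul]
    exact hsum g

/-- The first dynamical degrees are given by the characters. -/
lemma dynamical_eq {r : ℕ} (R : AbelianAction V Z Γ (Fin (r + 1)))
    (hsum : ∀ g, ∑ i, R.χ i g = 0) (hnef : ∀ i, R.D i ∈ V.Nef) (hne : ∀ i, R.D i ≠ 0) {A : V.Pic}
    (hA : V.IsAmple A) (g : Γ) :
    IsDynamicalDegree (R.act g) A (rate R Finset.univ g) := by
  have hl : ∀ x ∈ V.Nef, x ≠ 0 → 0 < V.deg (V.cls A) x := deg_pos hA
  have hA0 : V.cls A ≠ 0 := ample_ne hA (hnef 0) (hne 0)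
  obtain ⟨T, hT⟩ : ∃ T, T = (R.act g).ns := ⟨_, rfl⟩
  have hTnef : ∀ x ∈ V.Nef, T x ∈ V.Nef := by
    rw [hT]
    exact (R.act g).nef
  have hinj : Function.Injective T := by
    rw [hT]
    apply (R.act g).injective
    intro y
    refine ⟨(R.act (-g)).pt y, ?_⟩
    rw [← R.act_add, add_neg_cancel, R.act_zero]
  obtain ⟨d, hd, hlim⟩ := Pool.Agent.U935.KS.growth_limit V.nef_cone (V.deg (V.cls A)) hl hA hA0 T
    hTnef hinj
  have hdyn : IsDynamicalDegree (R.act g) A d := by
    rw [IsDynamicalDegree, ← hT]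
    exact hlim
  have hle : d ≤ rate R Finset.univ g := Pool.Agent.U935.KS.dynamical_le R hA g hdyn
  have hge : ∀ i, Real.exp (R.χ i g) ≤ d := by
    intro i
    by_contra hlt
    have hlt : d < Real.exp (R.χ i g) := not_le.1 hlt
    obtain ⟨M, hM, hunit⟩ := unit_le V.nef_cone hA
    have hnn : ∀ k : ℕ, 0 ≤ V.deg (V.cls A) ((T ^ k) (V.cls A)) := by
      intro k
      have h1 : (T ^ k) (V.cls A) ∈ V.Nef := pow_mem hTnef k (interior_subset hA)
      by_cases h0 : (T ^ k) (V.cls A) = 0
      · rw [h0, map_zero]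
      · exact (hl _ h1 h0).le
    have hTn : ∀ n : ℕ, (T ^ n) (R.D i) = Real.exp (R.χ i g) ^ n • R.D i := by
      intro n
      induction n with
      | zero => simp
      | succ n ih =>
        rw [pow_succ', Module.End.mul_apply, ih, map_smul, hT, R.eigen, smul_smul, pow_succ]
    have hli : 0 < V.deg (V.cls A) (R.D i) := hl _ (hnef i) (hne i)
    have hn0 : 0 < ‖R.D i‖ := norm_pos_iff.2 (hne i)
    refine no_gt (c := V.deg (V.cls A) (R.D i) / (M * ‖R.D i‖)) hd hlt (by positivity) hnn hlim 0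
      fun k _ => ?_
    have h1 : (T ^ k) ((M * ‖R.D i‖) • V.cls A - R.D i) ∈ V.Nef := pow_mem hTnef k (hunit _)
    have h2 : 0 ≤ V.deg (V.cls A) ((T ^ k) ((M * ‖R.D i‖) • V.cls A - R.D i)) := by
      by_cases h0 : (T ^ k) ((M * ‖R.D i‖) • V.cls A - R.D i) = 0
      · rw [h0, map_zero]
      · exact (hl _ h1 h0).le
    rw [map_sub, map_sub, map_smul, map_smul, hTn, map_smul, smul_eq_mul, smul_eq_mul] at h2
    rw [div_mul_eq_mul_div, div_le_iff₀ (by positivity)]
    linarith
  have hone : 1 ≤ d := by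
    obtain ⟨i, hi⟩ : ∃ i, 0 ≤ R.χ i g := by
      by_contra hcon
      push Not at hcon
      have h1 := Finset.sum_neg (fun i _ => hcon i)
        (⟨(0 : Fin (r + 1)), Finset.mem_univ _⟩ : (Finset.univ : Finset (Fin _)).Nonempty)
      rw [hsum g] at h1
      exact lt_irrefl _ h1
    exact (Real.one_le_exp hi).trans (hge i)
  have hrd : rate R Finset.univ g = d := by
    refine le_antisymm ?_ hle
    rcases Pool.Agent.U935.KS.rate_cases R Finset.univ g with h | ⟨i, -, h⟩
    · rw [h]
      exact hone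
    · rw [h]
      exact hge i
  rw [hrd]
  exact hdyn

/-- All characters occur in the heights along an infinite orbit. -/
lemma spectrum_univ (hV : NumberField V) {r : ℕ} (R : AbelianAction V Z Γ (Fin (r + 1)))
    (hR : MaximalRank R) {A : V.Pic} (hA : V.IsAmple A) {u : V.Pt → ℝ} (hu : V.IsHeight A u)
    {x : V.Pt} (hx : x ∉ R.Null) (hinf : InfiniteGroupOrbit R x) :
    Spectrum R u x Finset.univ := by
  obtain ⟨hE, hB⟩ := Pool.Agent.U935.KS.exposed_balanced R hR
  obtain ⟨S, hS⟩ := Pool.Agent.U935.KS.spectrum hV R hE hA hu hx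
  have hne := hS.nonempty_iff.2 hinf
  have huniv : S = Finset.univ := by
    by_contra h
    obtain ⟨g', hg'⟩ := hB S hne h
    obtain ⟨i, hi, hi0⟩ := hS.balanced hne g'
    have := hg' i hi
    linarith
  rwa [huniv] at hS

/-- The points with a finite orbit have bounded height. -/
lemma bounded_height {ι : Type} [Fintype ι] (P : AbelianAction V Z Γ ι) (hP : Exposed P)
    {A : V.Pic} (hA : V.IsAmple A) {u : V.Pt → ℝ} (hu : V.IsHeight A u) :
    ∃ C : ℝ, ∀ x, x ∉ P.Null → ¬ InfiniteGroupOrbit P x → u x ≤ C := by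
  obtain ⟨k, C, hC, hk⟩ := Pool.Agent.U935.KS.canonical P hP hA hu
  refine ⟨C, fun x hx hfin => ?_⟩
  have hzero : ∀ i, k i x = 0 := by
    intro i
    by_contra hne
    apply hfin
    intro hfin'
    obtain ⟨g, hg, -⟩ := hP i
    have hinj : Function.Injective fun n : ℕ => (P.act (n • g)).pt x := by
      intro m n hmn
      have h1 : Real.exp (P.χ i (m • g)) * k i x = Real.exp (P.χ i (n • g)) * k i x := by
        rw [← (hk x hx).1, ← (hk x hx).1]
        exact congrArg (k i) hmn
      have h2 := mul_right_cancel₀ hne h1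
      rw [Real.exp_eq_exp, map_nsmul, map_nsmul, nsmul_eq_mul, nsmul_eq_mul] at h2
      have h3 := mul_right_cancel₀ hg.ne' h2
      exact_mod_cast h3
    refine Set.infinite_range_of_injective hinj (Set.Finite.subset hfin' ?_)
    rintro _ ⟨n, rfl⟩
    exact ⟨n • g, rfl⟩
  have h1 := (hk x hx).2.2
  simp only [hzero, abs_zero, Finset.sum_const_zero, add_zero, mul_one] at h1
  exact (le_max_right _ _).trans h1

/-- **The main theorem.** -/
theorem main (hV : NumberField V) {r : ℕ} (hr : 1 ≤ r) (P : LatticeAction V Z Γ (r + 1))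
    (hP : EntropyRank P r) :
    ∃ χ : Fin (r + 1) → Γ →+ ℝ, Simplicial P χ ∧
      ∀ (A : V.Pic) (u : V.Pt → ℝ), V.IsAmple A → V.IsHeight A u →
        (∀ g, IsDynamicalDegree (P.act g) A (topRate χ g)) ∧
        (∀ x, InfiniteUnder P x → HeightGrowth P u χ x ∧
          ∀ g, IsArithmeticDegree (P.act g) u x (topRate χ g)) ∧
        (∃ C : ℝ, ∀ x, ¬ InfiniteUnder P x → u x ≤ C) ∧
        (∀ e : ℕ, {x | (MulAction.orbit G x).ncard ≤ e ∧ ¬ InfiniteUnder P x}.Finite) ∧
        ∀ g, 1 < topRate χ g → ∀ x, InfiniteOrbit (P.act g) x ↔ InfiniteUnder P x := by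
  obtain ⟨R, hact, hR, hS, hnef, hne, hNull, -⟩ := exists_action hr P hP
  have hinf : ∀ x, InfiniteGroupOrbit R x ↔ InfiniteUnder P x := by
    intro x
    rw [InfiniteGroupOrbit, hact]
    rfl
  have hnull : ∀ x, x ∉ R.Null := by
    intro x
    rw [hNull]
    exact Set.notMem_empty x
  refine ⟨R.χ, hS, fun A u hA hu => ?_⟩
  have hdeg : ∀ x, InfiniteUnder P x →
      ∀ g, IsArithmeticDegree (P.act g) u x (topRate R.χ g) := by
    intro x hi g
    have h1 := Pool.Agent.U935.KS.degree_of_spectrum R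
      (spectrum_univ hV R hR hA hu (hnull x) ((hinf x).2 hi)) g
    rw [hact] at h1
    exact h1
  have hgrow : ∀ x, InfiniteUnder P x → HeightGrowth P u R.χ x := by
    intro x hi
    obtain ⟨c, C, hc, hC, hb⟩ := (spectrum_univ hV R hR hA hu (hnull x) ((hinf x).2 hi)).heights
    refine ⟨c, 2 * C, hc, by positivity, fun g => ?_⟩
    have h0 : ∀ i, 0 < Real.exp (R.χ i g) := fun i => Real.exp_pos _
    have h1 : 1 ≤ ∑ i, Real.exp (R.χ i g) := by
      obtain ⟨i, hi⟩ : ∃ i, 0 ≤ R.χ i g := by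
        by_contra hcon
        push Not at hcon
        have h1 := Finset.sum_neg (fun i _ => hcon i)
          (⟨(0 : Fin (r + 1)), Finset.mem_univ _⟩ : (Finset.univ : Finset (Fin _)).Nonempty)
        rw [hS.sum_zero g] at h1
        exact lt_irrefl _ h1
      exact (Real.one_le_exp hi).trans (Finset.single_le_sum
        (f := fun i => Real.exp (R.χ i g)) (fun j _ => (h0 j).le) (Finset.mem_univ i))
    have h2 := hb g
    rw [hact] at h2
    constructor
    · refine le_trans ?_ h2.1
      nlinarith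
    · refine h2.2.trans ?_
      nlinarith
  refine ⟨fun g => ?_, fun x hi => ⟨hgrow x hi, hdeg x hi⟩, ?_, fun e => ?_, fun g hg x => ?_⟩
  · rw [← hact]
    exact dynamical_eq R hS.sum_zero hnef hne hA g
  · obtain ⟨C, hC⟩ := bounded_height R (Pool.Agent.U935.KS.exposed_balanced R hR).1 hA hu
    exact ⟨C, fun x hx => hC x (hnull x) fun h => hx ((hinf x).1 h)⟩
  · have h1 := Pool.Agent.U935.KS.finite_orbits hV R
      (Pool.Agent.U935.KS.exposed_balanced R hR).1 hA hu e
    refine h1.subset ?_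
    rintro x ⟨h3, h4⟩
    exact ⟨hnull x, h3, fun h => h4 ((hinf x).1 h)⟩
  · have hit : ∀ n : ℕ, (P.act g).pt^[n] x = (P.act (n • g)).pt x := by
      intro n
      have := Pool.Agent.U935.KS.act_iterate R g n x
      rwa [hact] at this
    constructor
    · intro h hfin
      refine h (Set.Finite.subset hfin ?_)
      rintro _ ⟨n, rfl⟩
      exact ⟨n • g, (hit n).symm⟩
    · intro h hfin
      obtain ⟨c, C, hc, -, hb⟩ := hgrow x h
      obtain ⟨i, hi⟩ : ∃ i, 1 < Real.exp (R.χ i g) := by
        rcases Pool.Agent.U935.KS.rate_cases R Finset.univ g with h1 | ⟨i, -, h1⟩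
        · exact absurd h1 (ne_of_gt hg)
        · exact ⟨i, by rw [← h1]; exact hg⟩
      obtain ⟨M, hM⟩ := (hfin.image fun y => max 1 (u y)).bddAbove
      obtain ⟨n, hn⟩ := pow_unbounded_of_one_lt (M / c) hi
      have h1 : max 1 (u ((P.act (n • g)).pt x)) ≤ M := by
        apply hM
        refine ⟨_, ⟨n, rfl⟩, ?_⟩
        simp only [hit]
      have h2 := (hb (n • g)).1.trans h1
      have h3 : Real.exp (R.χ i (n • g)) ≤ ∑ i, Real.exp (R.χ i (n • g)) :=
        Finset.single_le_sum (f := fun i => Real.exp (R.χ i (n • g)))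
          (fun j _ => (Real.exp_pos _).le) (Finset.mem_univ i)
      rw [map_nsmul, nsmul_eq_mul, Real.exp_nat_mul] at h3
      rw [div_lt_iff₀ hc] at hn
      have h4 := mul_le_mul_of_nonneg_left h3 hc.le
      linarith

end Pool.Agent.U935.PR
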