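import Mathlib
import Pool.Agent.U935.PR.Main
import Pool.Agent.U935.KS.Dense

set_option autoImplicit false

namespace Pool.Agent.U935.PR

open Pool.Agent.Q8.KS Filter Topology
open Pool.Agent.U935.KS (Zariski NumberField InfiniteOrbit topRate AbelianAction
  MaximalRank Exposed Balanced InfiniteGroupOrbit Spectrum rate DenseOrbit Subvarieties)

/-- If a sum of `m` of the characters is zero, then `r + 1` divides `m`. -/
lemma dvd_of_relation {Γ : Type} [AddCommGroup Γ] {r : ℕ} (χ : Fin (r + 1) → Γ →+ ℝ)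
    (hsum : ∀ g, ∑ i, χ i g = 0)
    (hli : ∀ i, LinearIndependent ℝ fun j : {j // j ≠ i} => (χ j.1 : Γ → ℝ)) {m : ℕ}
    (φ : Fin m → Fin (r + 1)) (h : ∀ g, ∑ j, χ (φ j) g = 0) : r + 1 ∣ m := by
  classical
  obtain ⟨n, hn⟩ : ∃ n : Fin (r + 1) → ℕ, n = fun i => (Finset.univ.filter fun j => φ j = i).card :=
    ⟨_, rfl⟩
  have h1 : ∀ g, ∑ i, (n i : ℝ) * χ i g = 0 := by
    intro g
    rw [← h g, ← Finset.sum_fiberwise Finset.univ φ (fun j => χ (φ j) g)]
    refine Finset.sum_congr rfl fun i _ => ?_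
    rw [Finset.sum_congr rfl (g := fun _ => χ i g) fun j hj => by
      rw [(Finset.mem_filter.1 hj).2], Finset.sum_const, nsmul_eq_mul, hn]
  have h2 : ∀ i, i ≠ 0 → n i = n 0 := by
    intro i hi
    have h3 := hli 0
    rw [Fintype.linearIndependent_iff] at h3
    have h4 := h3 (fun j => (n j.1 : ℝ) - n 0) (by
      ext g
      rw [Finset.sum_apply, Pi.zero_apply]
      have h5 : ∑ i, ((n i : ℝ) - n 0) * χ i g = 0 := by
        have h6 : ∑ i, ((n i : ℝ) - n 0) * χ i g =
            ∑ i, (n i : ℝ) * χ i g - n 0 * ∑ i, χ i g := by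
          rw [Finset.mul_sum, ← Finset.sum_sub_distrib]
          exact Finset.sum_congr rfl fun j _ => by ring
        rw [h6, h1, hsum, mul_zero, sub_zero]
      rw [← Finset.add_sum_erase _ _ (Finset.mem_univ 0), sub_self, zero_mul, zero_add,
        Finset.sum_subtype (Finset.univ.erase 0) (p := fun j => j ≠ 0) (by simp)] at h5
      refine (Finset.sum_congr rfl fun j _ => ?_).trans h5
      rw [Pi.smul_apply, smul_eq_mul]) ⟨i, hi⟩
    have h7 : (n i : ℝ) = n 0 := sub_eq_zero.1 h4
    exact_mod_cast h7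
  have h3 : m = ∑ i, n i := by
    have h4 := Finset.card_eq_sum_card_fiberwise (s := (Finset.univ : Finset (Fin m)))
      (t := Finset.univ) (f := φ) (fun j _ => Finset.mem_coe.2 (Finset.mem_univ _))
    rw [Finset.card_univ, Fintype.card_fin] at h4
    rw [hn]
    exact h4
  refine ⟨n 0, ?_⟩
  rw [h3, Finset.sum_congr rfl (g := fun _ => n 0) fun i _ => ?_, Finset.sum_const,
    Finset.card_univ, Fintype.card_fin, smul_eq_mul]
  by_cases hi : i = 0
  · rw [hi]
  · exact h2 i hi

variable {G : Type} [Group G] {V : Variety G} {Z : Zariski V} {Γ : Type} [AddCommGroup Γ]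

/-- The dimension of a subvariety with finitely many translates. -/
lemma dvd_dim {r : ℕ} {P : LatticeAction V Z Γ (r + 1)} (S : SubvarietyData P)
    {R : AbelianAction V Z Γ (Fin (r + 1))} (hact : R.act = P.act)
    (hint : ∑ i, R.D i ∈ interior V.Nef) (hsum : ∀ g, ∑ i, R.χ i g = 0)
    (hli : ∀ i, LinearIndependent ℝ fun j : {j // j ≠ i} => (R.χ j.1 : Γ → ℝ)) {W : Set V.Pt}
    (hWcl : IsClosed[Z.top] W) (hWirr : @IsIrreducible _ Z.top W)
    (hfin : FinitelyManyTranslates P W) : r + 1 ∣ S.dim W := by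
  classical
  letI := Z.top
  have hfin' : (Set.range fun g : Γ => (R.act g).pt '' W).Finite := by
    rw [hact]
    exact hfin
  have hper : ∀ g : Γ, ∃ N : ℕ, 0 < N ∧ (R.act (N • g)).pt '' W = W := by
    intro g
    obtain ⟨m, n, hmn, heq⟩ : ∃ m n : ℕ, m < n ∧
        (R.act (m • g)).pt '' W = (R.act (n • g)).pt '' W := by
      have hninj : ¬ Function.Injective fun n : ℕ => (R.act (n • g)).pt '' W := by
        intro hinj
        refine Set.infinite_range_of_injective hinj (hfin'.subset ?_)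
        rintro _ ⟨n, rfl⟩
        exact ⟨n • g, rfl⟩
      rw [Function.Injective] at hninj
      push Not at hninj
      obtain ⟨m, n, h1, h2⟩ := hninj
      rcases lt_or_gt_of_ne h2 with h | h
      · exact ⟨m, n, h, h1⟩
      · exact ⟨n, m, h, h1.symm⟩
    refine ⟨n - m, by omega, ?_⟩
    have h1 := congrArg (fun T => (R.act (-(m • g))).pt '' T) heq
    simp only [Pool.Agent.U935.KS.image_act] at h1
    rw [neg_add_cancel, Pool.Agent.U935.KS.image_zero] at h1
    have h2 : -(m • g) + n • g = (n - m) • g := by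
      have h3 : n • g = m • g + (n - m) • g := by
        rw [← add_smul]
        congr 1
        omega
      rw [h3, neg_add_cancel_left]
    rw [h2] at h1
    exact h1.symm
  have hpos := S.int_pos W hWcl hWirr _ hint
  obtain ⟨φ, hφ⟩ : ∃ φ : Fin (S.dim W) → Fin (r + 1), S.int W (fun j => R.D (φ j)) ≠ 0 := by
    by_contra hcon
    push Not at hcon
    have h1 : S.int W (fun _ => ∑ i, R.D i) = ∑ φ : Fin (S.dim W) → Fin (r + 1),
        S.int W (fun j => R.D (φ j)) := MultilinearMap.map_sum (S.int W) (fun _ i => R.D i)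
    rw [h1, Finset.sum_eq_zero fun φ _ => hcon φ] at hpos
    exact lt_irrefl _ hpos
  refine dvd_of_relation R.χ hsum hli φ fun g => ?_
  obtain ⟨N, hN, hNW⟩ := hper g
  have h1 := S.int_map W hWcl hWirr (N • g) (by rw [← hact]; exact hNW) (fun j => R.D (φ j))
  simp only [← hact, R.eigen] at h1
  rw [MultilinearMap.map_smul_univ, smul_eq_mul] at h1
  have h2 : ∏ j, Real.exp (R.χ (φ j) (N • g)) = 1 := by
    have h3 : (∏ j, Real.exp (R.χ (φ j) (N • g))) * S.int W (fun j => R.D (φ j))
        = 1 * S.int W (fun j => R.D (φ j)) := by rw [one_mul]; exact h1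
    exact mul_right_cancel₀ hφ h3
  rw [← Real.exp_sum, Real.exp_eq_one_iff] at h2
  have h3 : ∑ j, R.χ (φ j) (N • g) = N * ∑ j, R.χ (φ j) g := by
    rw [Finset.mul_sum]
    refine Finset.sum_congr rfl fun j _ => ?_
    rw [map_nsmul, nsmul_eq_mul]
  rw [h3] at h2
  rcases mul_eq_zero.1 h2 with h | h
  · exfalso
    have : (N : ℝ) ≠ 0 := by exact_mod_cast hN.ne'
    exact this h
  · exact h

/-- **Subvarieties and closures of orbits.** -/
theorem subvarieties {r : ℕ} (hr : 1 ≤ r) (P : LatticeAction V Z Γ (r + 1))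
    (hP : EntropyRank P r) (S : SubvarietyData P) :
    r + 1 ∣ V.dimPred + 1 ∧
    (∀ W : Set V.Pt, IsClosed[Z.top] W → @IsIrreducible _ Z.top W → FinitelyManyTranslates P W →
      r + 1 ∣ S.dim W) ∧
    (∀ x, InfiniteUnder P x → ∃ W, OrbitClosure P x W ∧ r + 1 ∣ S.dim W) ∧
    (V.dimPred + 1 < 2 * (r + 1) → ∀ x, InfiniteUnder P x →
      @Dense _ Z.top (Set.range fun g : Γ => (P.act g).pt x)) := by
  letI := Z.top
  obtain ⟨R, hact, hR, hS, hnef, hne, hNull, hint⟩ := exists_action hr P hP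
  have hdvd : ∀ W : Set V.Pt, IsClosed W → IsIrreducible W → FinitelyManyTranslates P W →
      r + 1 ∣ S.dim W := fun W h1 h2 h3 =>
    dvd_dim S hact hint hS.sum_zero hS.independent h1 h2 h3
  have himg : ∀ g, (P.act g).pt '' Set.univ = Set.univ := by
    intro g
    rw [Set.image_univ, Set.range_eq_univ]
    intro y
    refine ⟨(P.act (-g)).pt y, ?_⟩
    rw [← P.act_add, add_neg_cancel, P.act_zero]
  have hV : r + 1 ∣ V.dimPred + 1 := by
    rw [← S.dim_univ]
    haveI := Z.irreducible
    refine hdvd _ isClosed_univ (irreducibleSpace_def _ |>.1 Z.irreducible) ?_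
    refine (Set.finite_singleton Set.univ).subset ?_
    rintro _ ⟨g, rfl⟩
    exact himg g
  have hclo : ∀ x, InfiniteUnder P x → ∃ W, OrbitClosure P x W ∧ r + 1 ∣ S.dim W := by
    intro x hx
    let Q : Subvarieties R :=
      { noetherian := S.noetherian
        continuous := by rw [hact]; exact S.continuous
        dim := S.dim
        dim_lt := S.dim_lt
        dim_pos := S.dim_pos
        int := S.int
        int_pos := fun W h1 h2 _ => S.int_pos W h1 h2 _ hint
        int_map := by rw [hact]; exact S.int_map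
        many := by
          obtain ⟨e, he⟩ := S.many
          refine ⟨e, he.mono fun y hy => ⟨?_, hy⟩⟩
          rw [hNull]
          exact Set.notMem_empty y }
    have hxN : x ∉ R.Null := by
      rw [hNull]
      exact Set.notMem_empty x
    have hxi : InfiniteGroupOrbit R x := by
      rw [InfiniteGroupOrbit, hact]
      exact hx
    obtain ⟨W, h1, h2, h3, h4, h5, -⟩ := Pool.Agent.U935.KS.closure_sum R Q hxN hxi
    rw [hact] at h4 h5
    exact ⟨W, ⟨h1, h2, h3, h5, h4⟩, hdvd W h1 h2 h5⟩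
  refine ⟨hV, hdvd, hclo, fun hlt x hx => ?_⟩
  obtain ⟨W, ⟨h1, h2, h3, h4, h5⟩, h6⟩ := hclo x hx
  have hW : W = Set.univ := by
    by_contra hne'
    have h7 := S.dim_lt W h1 h2 hne'
    have h8 := S.dim_pos W h1 h2 h3
    obtain ⟨a, ha⟩ := hV
    obtain ⟨b, hb⟩ := h6
    have ha2 : a < 2 := by
      by_contra hcon
      have : 2 * (r + 1) ≤ (r + 1) * a := by nlinarith [not_lt.1 hcon]
      omega
    have hb1 : 1 ≤ b := by
      rcases Nat.eq_zero_or_pos b with h | h
      · rw [h, mul_zero] at hb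
        omega
      · exact h
    have : (r + 1) * a ≤ (r + 1) * b := Nat.mul_le_mul_left _ (by omega)
    omega
  refine dense_iff_closure_eq.2 ?_
  rw [h5, Set.eq_univ_iff_forall]
  intro y
  refine Set.mem_iUnion.2 ⟨0, ?_⟩
  rw [hW, himg]
  exact Set.mem_univ y

end Pool.Agent.U935.PR
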